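import Pool.Agent.H951R3.PB.Main

/-!
# Counting points with nonnegative Green pairings outside a finite set of places
(the counting theorem of `H951R3.PB.F9` without its hypothesis of good reduction)
-/

set_option autoImplicit false

namespace Pool.Agent.TH873.IP

open Real Filter Topology NumberField Finset Pool.Agent.H951R3.PB

universe u

/-- the counting theorem, with nonnegativity of the Green pairing on `X` outside `S` -/
theorem core_bound_X (d : ℕ) (hd : 2 ≤ d) (D : ℕ) : ∃ C ε : ℝ, 0 < C ∧ 0 < ε ∧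
    ∀ (K : Type u) [Field K] [NumberField K],
    ∀ f : Fin 2 → MvPolynomial (Fin 2) K, (∀ i, (f i).IsHomogeneous d) → rs f d ≠ 0 →
    ∀ (wi : InfinitePlace K → AbsoluteValue (AlgebraicClosure K) ℝ) (_ : ∀ v, Ext v.val (wi v))
      (wf : FinitePlace K → AbsoluteValue (AlgebraicClosure K) ℝ) (_ : ∀ v, Ext v.val (wf v))
      (S : Finset (FinitePlace K)) (v₁ : FinitePlace K), v₁ ∈ S →
      Ideal.absNorm v₁.maximalIdeal.asIdeal ≤ 2 ^ D →
    ∀ (μ : ℝ), (μ ≤ 0 ∨ ∃ i : InfinitePlace K ⊕ S,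
        μ ≤ msz d f (Sum.elim wi (fun v : S => wf v.1) i)) →
    ∀ (R : ℝ) (j : InfinitePlace K ⊕ S),
      ∑ i : InfinitePlace K ⊕ S, (1 + max (msz d f (Sum.elim wi (fun v : S => wf v.1) i)) 0) ≤
        R * (1 + max (msz d f (Sum.elim wi (fun v : S => wf v.1) j)) 0) →
    ∀ X : Finset (Fin 2 → K), (∀ x ∈ X, x ≠ 0) → (∀ x ∈ X, ∀ y ∈ X, x ≠ y → wd x y ≠ 0) →
      (∀ v, v ∉ S → ∀ x ∈ X, ∀ y ∈ X, x ≠ y →
        0 ≤ gg (wf v) (ev (fL K f)) d (log (wf v (rs (fL K f) d))) (vL K x) (vL K y)) →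
      (∀ x ∈ X, hcan d f x ≤ ε * (1 + max μ 0)) →
      (X.card : ℝ) ≤ C * (1 + C * R * Nat.log d X.card) := by
  obtain ⟨B1, hB1, hmmge⟩ := mm_ge.{u} d hd
  obtain ⟨M, c, B2, hc, hB2, hgain⟩ := gain.{u} d hd
  obtain ⟨B3, hB3, hloss⟩ := loss.{u} d hd
  set B := max B1 (max B2 B3) with hBdef
  have hB0 : 0 ≤ B := hB1.trans (le_max_left _ _)
  have hB1' : B1 ≤ B := le_max_left _ _
  have hB2' : B2 ≤ B := (le_max_left _ _).trans (le_max_right _ _)
  have hB3' : B3 ≤ B := (le_max_right _ _).trans (le_max_right _ _)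
  obtain ⟨M', haux⟩ := aux_gain.{u} d hd (2 ^ D) (4 * (c + 1) * B + 2)
  have hε : 0 < min (c / 16) (1 / 16) := lt_min (by positivity) (by norm_num)
  refine ⟨max (M * M' * d) (max (11 * (1 + B) * (1 + 1 / c)) 1), min (c / 16) (1 / 16),
    lt_of_lt_of_le one_pos ((le_max_right _ _).trans (le_max_right _ _)), hε, ?_⟩
  intro K _ _ f hf h0 wi hwi wf hwf S v₁ hv₁S hv₁ μ hμ R j hR X hX0 hX hS hcanX
  classical
  set F := ev (fL K f) with hF
  have hrs : rs (fL K f) d = algebraMap K (AlgebraicClosure K) (rs f d) := rs_map _ f d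
  have hrs0 : rs (fL K f) d ≠ 0 := by
    rw [hrs]
    exact (map_ne_zero_iff _ (algebraMap K (AlgebraicClosure K)).injective).2 h0
  have hfL : ∀ i, (fL K f i).IsHomogeneous d := fun i => (hf i).map _
  have hfib : ∀ w : AbsoluteValue (AlgebraicClosure K) ℝ,
      Fib w F d (log (w (rs (fL K f) d))) := fun w => fib_base w (by omega) hfL hrs0
  let W : InfinitePlace K ⊕ S → AbsoluteValue (AlgebraicClosure K) ℝ :=
    Sum.elim wi (fun v => wf v.1)
  let n : InfinitePlace K ⊕ S → ℝ := Sum.elim (fun v => (v.mult : ℝ)) (fun _ => 1)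
  let G : InfinitePlace K ⊕ S → (Fin 2 → K) → (Fin 2 → K) → ℝ := fun i x y =>
    gg (W i) F d (log (W i (rs (fL K f) d))) (vL K x) (vL K y)
  have hmult : ∀ v : InfinitePlace K, 1 ≤ (v.mult : ℝ) ∧ (v.mult : ℝ) ≤ 2 := by
    intro v
    have h1 : v.mult = 1 ∨ v.mult = 2 := by
      unfold InfinitePlace.mult
      split_ifs
      · exact Or.inl rfl
      · exact Or.inr rfl
    rcases h1 with h1 | h1 <;> rw [h1] <;> norm_num
  have hR0 : 0 ≤ R := by
    have h1 : 0 ≤ ∑ i : InfinitePlace K ⊕ S,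
        (1 + max (msz d f (Sum.elim wi (fun v : S => wf v.1) i)) 0) :=
      Finset.sum_nonneg fun i _ => by positivity
    have h2 : 0 < 1 + max (msz d f (Sum.elim wi (fun v : S => wf v.1) j)) 0 := by positivity
    by_contra hcon
    push Not at hcon
    have := mul_neg_of_neg_of_pos hcon h2
    linarith
  have key := count_abs (V := Fin 2 → K) hd n
    (by rintro (v | v)
        · exact (hmult v).1
        · exact le_rfl)
    (by rintro (v | v)
        · exact (hmult v).2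
        · show (1 : ℝ) ≤ 2
          norm_num)
    (fun i => mm (W i) F d (log (W i (rs (fL K f) d)))) G hB0 hc
    (A := 4 * (c + 1) * B + 2) le_rfl
    (fun i => le_trans (by linarith) (hmmge _ (W i) F _ (hfib (W i)))) X
    (by
      intro i k x hinj hxX
      have hne : ∀ a b, a ≠ b → wd (x a) (x b) ≠ 0 := fun a b hab =>
        hX _ (hxX a) _ (hxX b) (fun h => hab (hinj h))
      have h1 := hloss _ (W i) (fL K f) hfL hrs0 k (fun j => vL K (x j))
        (fun j => vL_ne (hX0 _ (hxX j))) (fun a b hab => wd_vL_ne (hne a b hab))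
      refine le_trans ?_ h1
      have h2 : (d : ℝ) ^ k * (k * (mm (W i) F d (log (W i (rs (fL K f) d))) + B3)) ≤
          (d : ℝ) ^ k * (k * (mm (W i) F d (log (W i (rs (fL K f) d))) + B)) := by
        gcongr
      linarith)
    (M := M)
    (by
      intro i
      obtain ⟨cell, hcell⟩ := hgain _ (W i) F _ (hfib (W i))
      refine ⟨fun x => cell (vL K x), fun x hx y hy hxy hc' => ?_⟩
      have := hcell _ _ (wd_vL_ne (hX x hx y hy hxy)) hc'
      exact le_trans (by linarith) this)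
    (Sum.inr ⟨v₁, hv₁S⟩) (M' := M')
    (by
      obtain ⟨cell, hcell⟩ := haux K v₁ hv₁ (wf v₁) (hwf v₁) (ext_na v₁ _ (hwf v₁)) F _
        (hfib (wf v₁))
      exact ⟨cell, fun x hx y hy hxy hc' => hcell x y (hX x hx y hy hxy) hc'⟩)
    (μ := μ) hμ j hR
    (by
      intro x hx y hy hxy
      have hw := hX x hx y hy hxy
      have h1 := global_le hd hf h0 wi hwi wf hwf hw S (fun v hv => hS v hv x hx y hy hxy)
      have h2 : ∑ i, n i * G i x y = ∑ v : InfinitePlace K, (v.mult : ℝ) *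
          gg (wi v) (ev (fL K f)) d (log (wi v (rs (fL K f) d))) (vL K x) (vL K y) +
        ∑ v ∈ S, gg (wf v) (ev (fL K f)) d (log (wf v (rs (fL K f) d))) (vL K x) (vL K y) := by
        rw [Fintype.sum_sum_type]
        congr 1
        rw [← Finset.sum_coe_sort S]
        exact Finset.sum_congr rfl fun v _ => one_mul _
      rw [h2]
      have h3 := hcanX x hx
      have h4 := hcanX y hy
      linarith)
  refine key.trans ?_
  have e1 : (M : ℝ) * M' * d ≤ max ((M : ℝ) * M' * d) (max (11 * (1 + B) * (1 + 1 / c)) 1) :=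
    le_max_left _ _
  have e2 : 11 * (1 + B) * (1 + 1 / c) ≤
      max ((M : ℝ) * M' * d) (max (11 * (1 + B) * (1 + 1 / c)) 1) :=
    (le_max_left _ _).trans (le_max_right _ _)
  gcongr


/-- the version with the number of places -/
theorem core_card_X (d : ℕ) (hd : 2 ≤ d) (D : ℕ) : ∃ C ε : ℝ, 0 < C ∧ 0 < ε ∧
    ∀ (K : Type u) [Field K] [NumberField K], Module.finrank ℚ K ≤ D →
    ∀ f : Fin 2 → MvPolynomial (Fin 2) K, (∀ i, (f i).IsHomogeneous d) → rs f d ≠ 0 →
    ∀ (wi : InfinitePlace K → AbsoluteValue (AlgebraicClosure K) ℝ) (_ : ∀ v, Ext v.val (wi v))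
      (wf : FinitePlace K → AbsoluteValue (AlgebraicClosure K) ℝ) (_ : ∀ v, Ext v.val (wf v))
      (S : Finset (FinitePlace K)) (v₁ : FinitePlace K), v₁ ∈ S →
      Ideal.absNorm v₁.maximalIdeal.asIdeal ≤ 2 ^ D →
    ∀ (μ : ℝ), (μ ≤ 0 ∨ ∃ i : InfinitePlace K ⊕ S,
        μ ≤ msz d f (Sum.elim wi (fun v : S => wf v.1) i)) →
    ∀ (s : ℕ), S.card ≤ s + 2 →
    ∀ X : Finset (Fin 2 → K), (∀ x ∈ X, x ≠ 0) → (∀ x ∈ X, ∀ y ∈ X, x ≠ y → wd x y ≠ 0) →
      (∀ v, v ∉ S → ∀ x ∈ X, ∀ y ∈ X, x ≠ y →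
        0 ≤ gg (wf v) (ev (fL K f)) d (log (wf v (rs (fL K f) d))) (vL K x) (vL K y)) →
      (∀ x ∈ X, hcan d f x ≤ ε * (1 + max μ 0)) →
      (X.card : ℝ) ≤ C * (s + 1) * log (s + 2) := by
  obtain ⟨C, ε, hC, hε, hcore⟩ := core_bound_X.{u} d hd D
  obtain ⟨C', hC', hsolve⟩ := solve_bound hC (D + 2) (by
    have : (0 : ℝ) ≤ D := Nat.cast_nonneg _
    linarith)
  refine ⟨C', ε, hC', hε, ?_⟩
  intro K _ _ hfin f hf h0 wi hwi wf hwf S v₁ hv₁S hv₁ μ hμ s hs X hX0 hX hS hcanX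
  classical
  obtain ⟨j, -, hj⟩ := Finset.exists_max_image (Finset.univ : Finset (InfinitePlace K ⊕ S))
    (fun i => msz d f (Sum.elim wi (fun v : S => wf v.1) i)) ⟨Sum.inr ⟨v₁, hv₁S⟩,
      Finset.mem_univ _⟩
  have hR : ∑ i : InfinitePlace K ⊕ S,
      (1 + max (msz d f (Sum.elim wi (fun v : S => wf v.1) i)) 0) ≤
        (Fintype.card (InfinitePlace K ⊕ S) : ℝ) *
        (1 + max (msz d f (Sum.elim wi (fun v : S => wf v.1) j)) 0) := by
    rw [← nsmul_eq_mul, ← Finset.card_univ]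
    refine Finset.sum_le_card_nsmul _ _ _ fun i _ => ?_
    have := hj i (Finset.mem_univ _)
    have h2 := max_le_max this (le_refl (0 : ℝ))
    linarith
  have h1 := hcore K f hf h0 wi hwi wf hwf S v₁ hv₁S hv₁ μ hμ _ j hR X hX0 hX hS hcanX
  have hs0 : (0 : ℝ) ≤ s := Nat.cast_nonneg _
  have hD0 : (0 : ℝ) ≤ D := Nat.cast_nonneg _
  have h2 := hsolve d X.card ((s : ℝ) + 1) _ hd (by linarith) ?_ (Nat.cast_nonneg _) h1
  · rw [show (s : ℝ) + 2 = 1 + (s + 1) by ring]
    exact h2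
  · rw [Fintype.card_sum, Fintype.card_coe]
    push_cast
    have h3 := card_inf_le hfin
    have h4 : (S.card : ℝ) ≤ s + 2 := by exact_mod_cast hs
    nlinarith


end Pool.Agent.TH873.IP
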