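import Pool.Agent.TH873.IP.A

/-!
# Regular orbits: the Green pairing is nonnegative, and the counting theorem
-/

set_option autoImplicit false

namespace Pool.Agent.TH873.IP

open Real Filter Topology NumberField Pool.Agent.H951R3.PB

universe u

section defs

variable {K : Type u} [Field K]

/-- Witness, at the absolute value `w` of the algebraic closure, for the regularity of the orbits
of the points of `X`: in some coordinates `A` over the algebraic closure some multiple of `f` is
given by forms `g` with `|Res g| ≤ 1`, and at the points of `X`, in these coordinates, the iterates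
of `g` have norm at least the corresponding power of the norm of the point. -/
def RegularAt (w : AbsoluteValue (AlgebraicClosure K) ℝ) (d : ℕ)
    (f : Fin 2 → MvPolynomial (Fin 2) K) (X : Finset (Fin 2 → K)) : Prop :=
  ∃ g : Fin 2 → MvPolynomial (Fin 2) (AlgebraicClosure K), (∀ i, (g i).IsHomogeneous d) ∧
    w (rs g d) ≤ 1 ∧
    ∃ (A : Matrix (Fin 2) (Fin 2) (AlgebraicClosure K)) (c : AlgebraicClosure K),
      A.det ≠ 0 ∧ c ≠ 0 ∧ (∀ x : Fin 2 → AlgebraicClosure K,
        A.mulVec (ev g x) = c • ev (fL K f) (A.mulVec x)) ∧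
      ∀ x ∈ X, ∀ y : Fin 2 → AlgebraicClosure K, A.mulVec y = vL K x →
        ∀ n : ℕ, nrm w y ^ (d ^ n) ≤ nrm w ((ev g)^[n] y)

/-- The points of `X` have regular orbits at the place `v`: `RegularAt` holds for some extension of
`v` to the algebraic closure. -/
def Regular (v : AbsoluteValue K ℝ) (d : ℕ) (f : Fin 2 → MvPolynomial (Fin 2) K)
    (X : Finset (Fin 2 → K)) : Prop :=
  ∃ w : AbsoluteValue (AlgebraicClosure K) ℝ, Ext v w ∧ RegularAt w d f X

end defs

theorem regular_gg {K : Type u} [Field K] [NumberField K] {d : ℕ} (hd : 2 ≤ d)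
    {f : Fin 2 → MvPolynomial (Fin 2) K} (hf : ∀ i, (f i).IsHomogeneous d)
    (h0 : rs (fL K f) d ≠ 0) (w : AbsoluteValue (AlgebraicClosure K) ℝ)
    (hw : IsNonarchimedean w) {X : Finset (Fin 2 → K)} (h : RegularAt w d f X)
    {x y : Fin 2 → K} (hx' : x ∈ X) (hy' : y ∈ X) (hxy : wd (vL K x) (vL K y) ≠ 0) :
    0 ≤ gg w (ev (fL K f)) d (log (w (rs (fL K f) d))) (vL K x) (vL K y) := by
  obtain ⟨g, hgh, hres, A, c, hA, hc, hconj, hreg⟩ := h
  have hfL : ∀ i, (fL K f i).IsHomogeneous d := fun i => (hf i).map _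
  have hFib := fib_base w (by omega : 1 ≤ d) hfL h0
  set F := ev (fL K f) with hF
  set r := log (w (rs (fL K f) d)) with hr
  set a : Fin 2 → AlgebraicClosure K := fun i => A i 0 with ha
  set b : Fin 2 → AlgebraicClosure K := fun i => A i 1 with hb
  have hemb : ∀ z, emb a b z = A.mulVec z := by
    intro z
    funext i
    simp only [emb, ha, hb, Matrix.mulVec, dotProduct, Fin.sum_univ_two, Pi.add_apply,
      Pi.smul_apply, smul_eq_mul]
    ring
  have hab : wd a b ≠ 0 := by
    have : wd a b = A.det := by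
      rw [Matrix.det_fin_two]; simp only [wd, ha, hb]; ring
    rw [this]; exact hA
  have hev : ev g = fun z => c • cj a b F z := by
    funext z
    have h1 := hconj z
    rw [← hemb, ← hemb] at h1
    rw [cj, ← D2.coo_smul, ← h1, D2.coo_emb hab]
  obtain ⟨hx, hy⟩ := D2.wd_swap0 (vL K x) (vL K y) hxy
  have hex : emb a b (coo a b (vL K x)) = vL K x := D2.emb_coo hab (vL K x)
  have hey : emb a b (coo a b (vL K y)) = vL K y := D2.emb_coo hab (vL K y)
  have hxy' : wd (coo a b (vL K x)) (coo a b (vL K y)) ≠ 0 := by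
    intro h0
    have := D2.wd_emb a b (coo a b (vL K x)) (coo a b (vL K y))
    rw [hex, hey, h0, mul_zero] at this
    exact hxy this
  have h1 := gg_cj hd hFib hab hxy'
  have h2 := gg_scale hd (fib_cj hFib hab) hc hxy'
  rw [hex, hey] at h1
  rw [← h1, ← h2.2]
  obtain ⟨hfib, -⟩ := h2
  rw [← hev] at hfib ⊢
  set ρ := cr w d r a b + 2 * d * log (w c) with hρ
  have hd2 : (2 : ℝ) ≤ d := by exact_mod_cast hd
  -- the Green function is at least the logarithm of the norm
  have hGr : ∀ z ∈ X, vL K z ≠ 0 →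
      log (nrm w (coo a b (vL K z))) ≤ Gr w (ev g) d (coo a b (vL K z)) := by
    intro z hz hz0
    have hv : coo a b (vL K z) ≠ 0 := D2.coo_ne hab hz0
    have h3 := gr_tendsto hd hfib hv
    refine ge_of_tendsto' h3 fun n => ?_
    have hp : (0 : ℝ) < (d : ℝ) ^ n := by positivity
    rw [le_div_iff₀ hp]
    have h4 := hreg z hz (coo a b (vL K z)) (by rw [← hemb, D2.emb_coo hab]) n
    have h5 := log_le_log (pow_pos (B1_nrm_pos w hv) _) h4
    rw [log_pow] at h5
    push_cast at h5
    linarith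
  have hρ0 : ρ ≤ 0 := by
    rw [fib_unique w (by omega : 1 ≤ d) hgh hfib]
    exact log_nonpos (w.nonneg _) hres
  have hta : 0 ≤ ta d ρ := by
    rw [ta]
    apply div_nonneg (by linarith)
    have : (0 : ℝ) ≤ d - 1 := by linarith
    positivity
  rw [gg]
  have hgx := hGr x hx' hx
  have hgy := hGr y hy' hy
  have hle := F2.wd_le w hw (coo a b (vL K x)) (coo a b (vL K y))
  have hpos : 0 < w (wd (coo a b (vL K x)) (coo a b (vL K y))) := w.pos hxy'
  have hlog := Real.log_le_log hpos hle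
  rw [log_mul (B1_nrm_pos w (D2.coo_ne hab hx)).ne' (B1_nrm_pos w (D2.coo_ne hab hy)).ne']
    at hlog
  linarith

/-- preperiodic points with regular orbits outside `T` -/
theorem main_regular (d : ℕ) (hd : 2 ≤ d) (D : ℕ) : ∃ C : ℝ, 0 < C ∧
    ∀ (K : Type u) [Field K] [NumberField K], Module.finrank ℚ K ≤ D →
    ∀ f : Fin 2 → MvPolynomial (Fin 2) K, (∀ i, (f i).IsHomogeneous d) →
      (∀ x : Fin 2 → AlgebraicClosure K, (∀ i, MvPolynomial.aeval x (f i) = 0) → x = 0) →
    ∀ (T : Finset (FinitePlace K)) (X : Finset (Fin 2 → K)),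
      (∀ v, v ∉ T → Regular v.val d f X) → (∀ x ∈ X, x ≠ 0) →
      (∀ x ∈ X, ∀ y ∈ X, ∀ c : K, x = c • y → x = y) →
      (∀ x ∈ X, ∃ m n : ℕ, m < n ∧ ∃ c : K, c ≠ 0 ∧
        (fun v : Fin 2 → K => fun i => MvPolynomial.eval v (f i))^[n] x =
          c • (fun v : Fin 2 → K => fun i => MvPolynomial.eval v (f i))^[m] x) →
      (X.card : ℝ) ≤ C * (T.card + 1) * log (T.card + 2) := by
  obtain ⟨C, ε, hC, hε, hcore⟩ := core_card_X.{u} d hd D
  refine ⟨C, hC, ?_⟩
  intro K _ _ hfin f hf hz T X hT hX0 hXc hpre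
  classical
  have h0 : rs f d ≠ 0 := rs_ne_of_noZero (by omega) hf hz
  have hX : ∀ x ∈ X, ∀ y ∈ X, x ≠ y → wd x y ≠ 0 := by
    intro x hx y hy hxy hw
    obtain ⟨c, -, hc⟩ := G6aux.parallel (hX0 x hx) (hX0 y hy) hw
    exact hxy (hXc y hy x hx c hc).symm
  have hcan0 : ∀ x ∈ X, hcan d f x = 0 := fun x hx => hcan_pre hd hf h0 (hX0 x hx) (hpre x hx)
  have hrs : rs (fL K f) d = algebraMap K (AlgebraicClosure K) (rs f d) := rs_map _ f d
  have hrs0 : rs (fL K f) d ≠ 0 := by
    rw [hrs]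
    exact (map_ne_zero_iff _ (algebraMap K (AlgebraicClosure K)).injective).2 h0
  choose wi hwi using fun v : InfinitePlace K => exists_ext_inf v
  have hex : ∀ v : FinitePlace K, ∃ w : AbsoluteValue (AlgebraicClosure K) ℝ, Ext v.val w ∧
      (v ∉ T → RegularAt w d f X) := by
    intro v
    by_cases h : v ∈ T
    · obtain ⟨w, h1⟩ := exists_ext_fin v
      exact ⟨w, h1, fun h' => absurd h h'⟩
    · obtain ⟨w, h1, h2⟩ := hT v h
      exact ⟨w, h1, fun _ => h2⟩
  choose wf hwf hreg using hex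
  obtain ⟨v₁, e, -, heD, hnorm⟩ := Pool.Agent.H951R2.MS.exists_place_above hfin Nat.prime_two
  have hv₁ : Ideal.absNorm v₁.maximalIdeal.asIdeal ≤ 2 ^ D := by
    rw [hnorm]
    exact Nat.pow_le_pow_right (by norm_num) heD
  refine hcore K hfin f hf h0 wi hwi wf hwf (insert v₁ T) v₁ (Finset.mem_insert_self _ _) hv₁
    0 (Or.inl le_rfl) T.card ?_ X hX0 hX ?_ ?_
  · have := Finset.card_insert_le v₁ T
    omega
  · intro v hv x hx y hy hxy
    rw [Finset.mem_insert, not_or] at hv
    exact regular_gg hd hf hrs0 (wf v) (ext_na v _ (hwf v)) (hreg v hv.2) hx hy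
      (wd_vL_ne (hX x hx y hy hxy))
  · intro x hx
    rw [hcan0 x hx]
    positivity

end Pool.Agent.TH873.IP
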