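import Pool.Agent.TH873.IP.B
import Pool.Agent.H951R3.PB.E3

/-!
# Polynomials: the points of one integral class
-/

set_option autoImplicit false

namespace Pool.Agent.TH873.IP

open Real Filter Topology NumberField Polynomial Pool.Agent.H951R3.PB

universe u

/-- the pair of forms `(p(X, Y), Y ^ d)` -/
noncomputable def pf {K : Type u} [Field K] (p : K[X]) (d : ℕ) : Fin 2 → MvPolynomial (Fin 2) K :=
  ![∑ i ∈ Finset.range (d + 1), MvPolynomial.C (p.coeff i) * MvPolynomial.X 0 ^ i *
      MvPolynomial.X 1 ^ (d - i), MvPolynomial.X 1 ^ d]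

theorem pf_hom {K : Type u} [Field K] (p : K[X]) (d : ℕ) (i : Fin 2) :
    (pf p d i).IsHomogeneous d := by
  fin_cases i
  · simp only [pf, Fin.zero_eta, Fin.isValue, Matrix.cons_val_zero]
    refine MvPolynomial.IsHomogeneous.sum _ _ _ fun i hi => ?_
    have hi' : i ≤ d := Nat.lt_succ_iff.1 (Finset.mem_range.1 hi)
    have h1 : (MvPolynomial.C (p.coeff i) * MvPolynomial.X 0 ^ i : MvPolynomial (Fin 2) K
        ).IsHomogeneous (0 + i) :=
      (MvPolynomial.isHomogeneous_C (Fin 2) (p.coeff i)).mul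
        (MvPolynomial.isHomogeneous_X_pow 0 i)
    have h2 := h1.mul (MvPolynomial.isHomogeneous_X_pow (R := K) (1 : Fin 2) (d - i))
    have h3 : 0 + i + (d - i) = d := by omega
    rwa [h3] at h2
  · simp only [pf, Fin.mk_one, Fin.isValue, Matrix.cons_val_one]
    exact MvPolynomial.isHomogeneous_X_pow (1 : Fin 2) d

theorem pf_map {K L : Type u} [Field K] [Field L] (σ : K →+* L) (p : K[X]) (d : ℕ) :
    (fun i => (pf p d i).map σ) = pf (p.map σ) d := by
  funext i
  fin_cases i
  · simp [pf, map_sum]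
  · simp [pf]

theorem pf_ev_one {K : Type u} [Field K] {p : K[X]} {d : ℕ} (hp : p.natDegree ≤ d) (x : K) :
    ev (pf p d) ![x, 1] = ![p.eval x, 1] := by
  funext i
  fin_cases i
  · simp only [ev, pf, Fin.zero_eta, Fin.isValue, Matrix.cons_val_zero, map_sum, map_mul,
      MvPolynomial.eval_C, map_pow, MvPolynomial.eval_X, Matrix.cons_val_one, one_pow, mul_one]
    rw [Polynomial.eval_eq_sum_range' (Nat.lt_succ_of_le hp)]
  · simp [ev, pf]

theorem pf_iter {K : Type u} [Field K] {p : K[X]} {d : ℕ} (hp : p.natDegree ≤ d) (x : K)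
    (n : ℕ) : (ev (pf p d))^[n] ![x, 1] = ![(fun x => p.eval x)^[n] x, 1] := by
  induction n with
  | zero => rfl
  | succ n ih =>
    rw [Function.iterate_succ_apply', ih, pf_ev_one hp, Function.iterate_succ_apply']

theorem pf_rs {K : Type u} [Field K] {p : K[X]} {d : ℕ} (hp : p.natDegree ≤ d) :
    rs (pf p d) d = p.coeff d ^ d := by
  have h0 : dh (pf p d 0) = p := by
    simp only [dh, pf, Matrix.cons_val_zero, map_sum, map_mul, map_pow, MvPolynomial.aeval_X,
      Matrix.cons_val_one, one_pow, mul_one]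
    refine Eq.trans (Finset.sum_congr rfl fun i _ => ?_)
      (Polynomial.as_sum_range_C_mul_X_pow' p (Nat.lt_succ_of_le hp)).symm
    congr 1
    exact MvPolynomial.aeval_C _ _
  have h1 : dh (pf p d 1) = 1 := by
    simp [dh, pf]
  rw [rs, h0, h1, Polynomial.resultant_one_right]

theorem pf_regular {K : Type u} [Field K] [NumberField K] {d : ℕ} (hd : 2 ≤ d) {p : K[X]}
    (hp : p.natDegree = d) {v : AbsoluteValue K ℝ} {w : AbsoluteValue (AlgebraicClosure K) ℝ}
    (hvw : Ext v w) {X : Finset K} {x₀ : K}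
    (hX : ∀ x ∈ X, v p.leadingCoeff * v (x - x₀) ^ (d - 1) ≤ 1) (Y : Finset (Fin 2 → K))
    (hY : ∀ y ∈ Y, ∃ x ∈ X, y = ![x, 1]) :
    RegularAt w d (pf p d) Y := by
  have hp0 : p ≠ 0 := by
    rintro rfl
    simp at hp
    omega
  have hlc : p.leadingCoeff ≠ 0 := leadingCoeff_ne_zero.2 hp0
  have hcd : p.coeff d = p.leadingCoeff := by rw [leadingCoeff, hp]
  set a : AlgebraicClosure K := algebraMap K (AlgebraicClosure K) p.leadingCoeff with ha
  have ha0 : a ≠ 0 := by
    rw [ha]
    exact (map_ne_zero_iff _ (algebraMap K (AlgebraicClosure K)).injective).2 hlc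
  obtain ⟨l, hl⟩ := IsAlgClosed.exists_pow_nat_eq a⁻¹ (show 0 < d - 1 by omega)
  have hl0 : l ≠ 0 := by
    rintro rfl
    rw [zero_pow (by omega)] at hl
    exact inv_ne_zero ha0 hl.symm
  have hfl : fL K (pf p d) = pf (p.map (algebraMap K (AlgebraicClosure K))) d := pf_map _ p d
  have hpd : (p.map (algebraMap K (AlgebraicClosure K))).natDegree = d := by
    rw [natDegree_map, hp]
  have hrs : rs (fL K (pf p d)) d = a ^ d := by
    rw [hfl, pf_rs hpd.le, coeff_map, hcd]
  have hrs0 : rs (fL K (pf p d)) d ≠ 0 := by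
    rw [hrs]
    exact pow_ne_zero _ ha0
  have hfL : ∀ i, (fL K (pf p d) i).IsHomogeneous d := fun i => (pf_hom p d i).map _
  set av : Fin 2 → AlgebraicClosure K := ![l, 0] with hav
  set bv : Fin 2 → AlgebraicClosure K := ![algebraMap K (AlgebraicClosure K) x₀, 1] with hbv
  have hwd : wd av bv = l := by simp [wd, hav, hbv]
  have hab : wd av bv ≠ 0 := by rw [hwd]; exact hl0
  obtain ⟨g, hgh, hgev, hg0⟩ := poly_cj (by omega : 1 ≤ d) hfL hrs0 hab
  have hwa : w a = v p.leadingCoeff := hvw _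
  have hwl : w l ^ (d - 1) = (w a)⁻¹ := by
    rw [← map_pow, hl, map_inv₀]
  have hwl0 : 0 < w l := w.pos hl0
  have hwa0 : 0 < w a := w.pos ha0
  refine ⟨g, hgh, ?_, Matrix.of ![![l, algebraMap K (AlgebraicClosure K) x₀], ![0, 1]], 1, ?_,
    one_ne_zero, ?_, ?_⟩
  · have hfib := fib_cj (fib_base w (by omega : 1 ≤ d) hfL hrs0) hab
    rw [← hgev] at hfib
    have h1 := fib_unique w (by omega : 1 ≤ d) hgh hfib
    rw [cr, hrs, map_pow, log_pow, hwd] at h1
    have h2 : ((d : ℝ) - 1) * log (w l) = -log (w a) := by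
      have h3 := congrArg log hwl
      rw [log_pow, log_inv] at h3
      have h4 : ((d - 1 : ℕ) : ℝ) = (d : ℝ) - 1 := by
        rw [Nat.cast_sub (by omega : 1 ≤ d)]
        norm_num
      rw [h4] at h3
      exact h3
    have h5 : log (w (rs g d)) = 0 := by
      rw [← h1]
      have : ((d : ℝ) ^ 2 - d) * log (w l) = d * (((d : ℝ) - 1) * log (w l)) := by ring
      rw [this, h2]
      ring
    by_contra hcon
    push Not at hcon
    have := log_pos hcon
    linarith
  · rw [Matrix.det_fin_two]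
    simpa using hl0
  · intro x
    have hemb : ∀ z, (Matrix.of ![![l, algebraMap K (AlgebraicClosure K) x₀], ![0, 1]]).mulVec z =
        emb av bv z := by
      intro z
      funext i
      fin_cases i
      · simp [emb, hav, hbv, Matrix.mulVec, dotProduct, Fin.sum_univ_two, mul_comm]
      · simp [emb, hav, hbv, Matrix.mulVec, dotProduct, Fin.sum_univ_two]
    rw [hemb, hemb, one_smul, hgev, cj, D2.emb_coo hab]
  · intro y hy z hz n
    obtain ⟨x, hx, rfl⟩ := hY y hy
    have hz0 := congrFun hz 0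
    have hz1 := congrFun hz 1
    simp only [Matrix.mulVec, dotProduct, Fin.sum_univ_two, vL, Matrix.of_apply,
      Matrix.cons_val_zero, Matrix.cons_val_one, zero_mul, zero_add, one_mul, map_one] at hz0 hz1
    rw [hz1, mul_one] at hz0
    have hz' : emb av bv z = vL K ![x, 1] := by
      funext i
      fin_cases i
      · simp only [emb, hav, hbv, vL, Fin.zero_eta, Fin.isValue, Pi.add_apply, Pi.smul_apply,
          Matrix.cons_val_zero, smul_eq_mul]
        rw [hz1, one_mul, ← hz0]
        ring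
      · simp [emb, hav, hbv, vL, hz1]
    have hw0 : w (z 0) ≤ 1 := by
      have h1 : w (z 0) * w l = v (x - x₀) := by
        rw [← hvw, ← map_mul, map_sub, ← hz0]
        congr 1
        ring
      have h2 := hX x hx
      rw [← hwa, ← h1, mul_pow, hwl] at h2
      have h3 : w (z 0) ^ (d - 1) ≤ 1 := by
        have h4 : w a * (w (z 0) ^ (d - 1) * (w a)⁻¹) = w (z 0) ^ (d - 1) := by
          field_simp
        rwa [h4] at h2
      exact (pow_le_one_iff_of_nonneg (w.nonneg _) (by omega)).1 h3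
    have hn1 : nrm w z = 1 := by
      rw [nrm, hz1, map_one]
      exact max_eq_right hw0
    rw [hn1, one_pow, hgev, D2.iter_cj]
    · rw [hz', F4_iter, pf_iter hp.le]
      have h5 : (coo av bv (vL K ![(fun x => p.eval x)^[n] x, 1])) 1 = 1 := by
        simp only [coo, Matrix.cons_val_one, hwd]
        simp [wd, hav, vL, hl0]
      calc (1 : ℝ) = w ((coo av bv (vL K ![(fun x => p.eval x)^[n] x, 1])) 1) := by
            rw [h5, map_one]
        _ ≤ _ := le_max_right _ _
    all_goals exact hab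

/-- preperiodic points of polynomials in one integral class outside `T` -/
theorem main_poly (d : ℕ) (hd : 2 ≤ d) (D : ℕ) : ∃ C : ℝ, 0 < C ∧
    ∀ (K : Type u) [Field K] [NumberField K], Module.finrank ℚ K ≤ D →
    ∀ p : K[X], p.natDegree = d → ∀ (T : Finset (FinitePlace K)) (X : Finset K),
      (∀ v, v ∉ T → ∀ x ∈ X, ∀ y ∈ X, v p.leadingCoeff * v (x - y) ^ (d - 1) ≤ 1) →
      (∀ x ∈ X, ∃ m n : ℕ, m < n ∧
        (fun x => p.eval x)^[n] x = (fun x => p.eval x)^[m] x) →
      (X.card : ℝ) ≤ C * (T.card + 1) * log (T.card + 2) := by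
  obtain ⟨C, hC, hmain⟩ := main_regular.{u} d hd D
  refine ⟨C, hC, ?_⟩
  intro K _ _ hfin p hp T X hX hpre
  classical
  rcases X.eq_empty_or_nonempty with rfl | ⟨x₀, hx₀⟩
  · have h1 : 0 ≤ log ((T.card : ℝ) + 2) := log_nonneg (by
      have : (0 : ℝ) ≤ T.card := Nat.cast_nonneg _
      linarith)
    rw [Finset.card_empty, Nat.cast_zero]
    positivity
  have hinj : Function.Injective (fun x : K => (![x, 1] : Fin 2 → K)) := by
    intro x y hxy
    exact congrFun hxy 0
  have hlc : p.leadingCoeff ≠ 0 := by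
    rw [leadingCoeff_ne_zero]
    rintro rfl
    simp at hp
    omega
  have hcd : p.coeff d = p.leadingCoeff := by rw [leadingCoeff, hp]
  have h1 := hmain K hfin (pf p d) (pf_hom p d) ?_ T (X.image fun x : K => (![x, 1] : Fin 2 → K))
    ?_ ?_ ?_ ?_
  · rwa [Finset.card_image_of_injective _ hinj] at h1
  · -- no common zeros
    intro x hx
    have hfl : fL K (pf p d) = pf (p.map (algebraMap K (AlgebraicClosure K))) d := pf_map _ p d
    have hrs : rs (fL K (pf p d)) d ≠ 0 := by
      rw [hfl, pf_rs (by rw [natDegree_map, hp]), coeff_map, hcd]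
      exact pow_ne_zero _
        ((map_ne_zero_iff _ (algebraMap K (AlgebraicClosure K)).injective).2 hlc)
    refine (rs_ne_zero_iff (by omega : 1 ≤ d) (fun i => (pf_hom p d i).map _)).1 hrs x ?_
    funext i
    have := hx i
    rw [MvPolynomial.aeval_def, ← MvPolynomial.eval_map] at this
    exact this
  · intro v hv
    obtain ⟨w, hw⟩ := exists_ext_fin v
    refine ⟨w, hw, pf_regular hd hp hw (X := X) (x₀ := x₀)
      (fun x hx => hX v hv x hx x₀ hx₀) _ ?_⟩
    intro y hy
    obtain ⟨x, hx, rfl⟩ := Finset.mem_image.1 hy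
    exact ⟨x, hx, rfl⟩
  · intro y hy h0
    obtain ⟨x, hx, rfl⟩ := Finset.mem_image.1 hy
    have := congrFun h0 1
    simp at this
  · intro y hy z hz c hyz
    obtain ⟨x, hx, rfl⟩ := Finset.mem_image.1 hy
    obtain ⟨x', hx', rfl⟩ := Finset.mem_image.1 hz
    have h1 := congrFun hyz 1
    simp at h1
    rw [hyz, ← h1, one_smul]
  · intro y hy
    obtain ⟨x, hx, rfl⟩ := Finset.mem_image.1 hy
    obtain ⟨m, n, hmn, h⟩ := hpre x hx
    refine ⟨m, n, hmn, 1, one_ne_zero, ?_⟩
    have h2 : (fun v : Fin 2 → K => fun i => MvPolynomial.eval v (pf p d i)) = ev (pf p d) := rfl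
    rw [h2, one_smul, pf_iter hp.le, pf_iter hp.le, h]

end Pool.Agent.TH873.IP
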